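import Pool.Agent.Run7.h115.HK.Iface

/-! # C: limits of integrals under continuous convergence -/

set_option autoImplicit false

open MeasureTheory Filter Topology Set
open scoped ENNReal
open Pool.Agent.N288.MM

namespace Run7.h803.HK

open Run7.h115.HK

theorem c_local {h : ℕ → ℝ → ℝ} {h₀ : ℝ → ℝ}
    (hc : ∀ (x : ℕ → ℝ) (x₀ : ℝ), Tendsto x atTop (𝓝 x₀) →
      Tendsto (fun N => h N (x N)) atTop (𝓝 (h₀ x₀))) (x₀ : ℝ) :
    ∃ δ : ℝ, 0 < δ ∧ ∃ N₀ : ℕ, ∀ N, N₀ ≤ N → ∀ x, |x - x₀| < δ → |h N x| ≤ |h₀ x₀| + 1 := by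
  by_contra hno
  push Not at hno
  have hf : ∀ n : ℕ, ∃ᶠ N in atTop, ∃ x, |x - x₀| < 1 / ((n : ℝ) + 1) ∧
      |h₀ x₀| + 1 < |h N x| := by
    intro n
    rw [frequently_atTop]
    intro a
    obtain ⟨N, hN, x, hx, hx'⟩ := hno (1 / ((n : ℝ) + 1)) (by positivity) a
    exact ⟨N, hN, x, hx, hx'⟩
  obtain ⟨φ, hφ, hP⟩ := extraction_forall_of_frequently hf
  choose x hx hx' using hP
  set y : ℕ → ℝ := Function.extend φ x (fun _ => x₀) with hy
  have hyt : Tendsto y atTop (𝓝 x₀) := by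
    rw [Metric.tendsto_atTop]
    intro η hη
    obtain ⟨K, hK⟩ := exists_nat_gt (1 / η)
    refine ⟨φ K, fun N hN => ?_⟩
    rw [Real.dist_eq]
    by_cases hex : ∃ k, φ k = N
    · obtain ⟨k, rfl⟩ := hex
      rw [hy, hφ.injective.extend_apply]
      have hk : K ≤ k := hφ.le_iff_le.1 hN
      refine (hx k).trans_le ?_
      rw [div_le_iff₀ (by positivity)]
      rw [div_lt_iff₀ hη] at hK
      have : (K : ℝ) ≤ k := by exact_mod_cast hk
      nlinarith
    · rw [hy, Function.extend_apply' _ _ _ hex, sub_self, abs_zero]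
      exact hη
  have h1 := (hc y x₀ hyt).comp hφ.tendsto_atTop
  have h2 : Tendsto (fun k => |h (φ k) (y (φ k))|) atTop (𝓝 |h₀ x₀|) := h1.abs
  have h3 : |h₀ x₀| + 1 ≤ |h₀ x₀| := by
    refine ge_of_tendsto' h2 fun k => ?_
    rw [hy, hφ.injective.extend_apply]
    exact (hx' k).le
  linarith

theorem c_bdd {h : ℕ → ℝ → ℝ} {h₀ : ℝ → ℝ}
    (hc : ∀ (x : ℕ → ℝ) (x₀ : ℝ), Tendsto x atTop (𝓝 x₀) →
      Tendsto (fun N => h N (x N)) atTop (𝓝 (h₀ x₀))) (R : ℝ) :
    ∃ (M : ℝ) (N₀ : ℕ), ∀ N, N₀ ≤ N → ∀ x ∈ Icc (-R) R, |h N x| ≤ M := by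
  refine (isCompact_Icc (a := -R) (b := R)).induction_on
    (p := fun s => ∃ (M : ℝ) (N₀ : ℕ), ∀ N, N₀ ≤ N → ∀ x ∈ s, |h N x| ≤ M) ?_ ?_ ?_ ?_
  · exact ⟨0, 0, fun N _ x hx => absurd hx (notMem_empty x)⟩
  · rintro s t hst ⟨M, N₀, h1⟩
    exact ⟨M, N₀, fun N hN x hx => h1 N hN x (hst hx)⟩
  · rintro s t ⟨M, N₀, h1⟩ ⟨M', N₀', h1'⟩
    refine ⟨max M M', max N₀ N₀', fun N hN x hx => ?_⟩
    rcases hx with hx | hx
    · exact (h1 N (le_of_max_le_left hN) x hx).trans (le_max_left _ _)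
    · exact (h1' N (le_of_max_le_right hN) x hx).trans (le_max_right _ _)
  · intro x₀ _
    obtain ⟨δ, hδ, N₀, h1⟩ := c_local hc x₀
    refine ⟨Metric.ball x₀ δ, mem_nhdsWithin_of_mem_nhds (Metric.ball_mem_nhds _ hδ),
      |h₀ x₀| + 1, N₀, fun N hN x hx => h1 N hN x ?_⟩
    rw [Metric.mem_ball, Real.dist_eq] at hx
    exact hx

theorem t_C : S_W2 → S_C := by
  intro hW2 w hw h h₀ hcont hcont₀ hc R hR
  have hpt : ∀ x, Tendsto (fun N => h N x) atTop (𝓝 (h₀ x)) := fun x =>
    hc (fun _ => x) x tendsto_const_nhds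
  have hR₀ : ∀ x, R < |x| → h₀ x = 0 := by
    intro x hx
    refine tendsto_nhds_unique (hpt x) ?_
    have : (fun N => h N x) = fun _ => (0 : ℝ) := funext fun N => hR N x hx
    rw [this]
    exact tendsto_const_nhds
  obtain ⟨M, N₀, hM⟩ := c_bdd hc R
  have hmem : ∀ x, x ∉ Icc (-R) R → R < |x| := by
    intro x hx
    by_contra hcon
    push Not at hcon
    exact hx (abs_le.1 hcon)
  have hM₀ : ∀ x ∈ Icc (-R) R, |h₀ x| ≤ M := fun x hx =>
    le_of_tendsto (hpt x).abs ((eventually_ge_atTop N₀).mono fun N hN => hM N hN x hx)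
  have hcs₀ : HasCompactSupport h₀ := HasCompactSupport.intro isCompact_Icc
    fun x hx => hR₀ x (hmem x hx)
  have hcs : ∀ N, HasCompactSupport (h N) := fun N => HasCompactSupport.intro isCompact_Icc
    fun x hx => hR N x (hmem x hx)
  have hi₀ : Integrable h₀ := hcont₀.integrable_of_hasCompactSupport hcs₀
  have hi : ∀ N, Integrable (h N) := fun N => (hcont N).integrable_of_hasCompactSupport (hcs N)
  have hwb : ∀ N x, ‖w N x‖ ≤ 2 := fun N x => by
    have h1 := (hw.wt N).one_le x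
    have h2 := (hw.wt N).le_two x
    rw [Real.norm_eq_abs, abs_le]
    constructor <;> linarith
  have hwm : ∀ N, AEStronglyMeasurable (w N) volume := fun N =>
    (hw.wt N).meas.aestronglyMeasurable
  have hiw : ∀ (f : ℝ → ℝ) (N : ℕ), Integrable f → Integrable fun x => f x * w N x :=
    fun f N hf => hf.mul_bdd (hwm N) (ae_of_all _ (hwb N))
  -- the difference
  have hbint : Integrable (indicator (Icc (-R) R) fun _ => 2 * (2 * M) : ℝ → ℝ) :=
    (integrable_indicator_iff measurableSet_Icc).2 (integrableOn_const (by simp) enorm_ne_top)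
  have hdiff : Tendsto (fun N => ∫ x, (h N x - h₀ x) * w N x) atTop (𝓝 0) := by
    rw [← integral_zero ℝ ℝ (μ := volume)]
    refine tendsto_integral_filter_of_dominated_convergence
      (indicator (Icc (-R) R) fun _ => 2 * (2 * M)) ?_ ?_ hbint ?_
    · exact Eventually.of_forall fun N =>
        ((hcont N).sub hcont₀).aestronglyMeasurable.mul (hwm N)
    · filter_upwards [eventually_ge_atTop N₀] with N hN
      refine ae_of_all _ fun x => ?_
      by_cases hx : x ∈ Icc (-R) R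
      · rw [indicator_of_mem hx, norm_mul, mul_comm]
        have h1 : ‖h N x - h₀ x‖ ≤ 2 * M := by
          refine (norm_sub_le _ _).trans ?_
          rw [Real.norm_eq_abs, Real.norm_eq_abs]
          linarith [hM N hN x hx, hM₀ x hx]
        exact mul_le_mul (hwb N x) h1 (norm_nonneg _) (by norm_num)
      · rw [indicator_of_notMem hx, hR N x (hmem x hx), hR₀ x (hmem x hx)]
        simp
    · refine ae_of_all _ fun x => ?_
      have h1 : Tendsto (fun N => |h N x - h₀ x| * 2) atTop (𝓝 0) := by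
        have := ((hpt x).sub_const (h₀ x)).abs.mul_const 2
        simpa using this
      refine squeeze_zero_norm (fun N => ?_) h1
      rw [norm_mul, Real.norm_eq_abs]
      exact mul_le_mul_of_nonneg_left (hwb N x) (abs_nonneg _)
  have hdiff1 : Tendsto (fun N => ∫ x, h N x) atTop (𝓝 (∫ x, h₀ x)) := by
    have hbint' : Integrable (indicator (Icc (-R) R) fun _ => M : ℝ → ℝ) :=
      (integrable_indicator_iff measurableSet_Icc).2 (integrableOn_const (by simp) enorm_ne_top)
    refine tendsto_integral_filter_of_dominated_convergence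
      (indicator (Icc (-R) R) fun _ => M) ?_ ?_ hbint' ?_
    · exact Eventually.of_forall fun N => (hcont N).aestronglyMeasurable
    · filter_upwards [eventually_ge_atTop N₀] with N hN
      refine ae_of_all _ fun x => ?_
      by_cases hx : x ∈ Icc (-R) R
      · rw [indicator_of_mem hx]
        exact hM N hN x hx
      · rw [indicator_of_notMem hx, hR N x (hmem x hx)]
        simp
    · exact ae_of_all _ hpt
  have hmain : Tendsto (fun N => ∫ x, h N x * w N x) atTop (𝓝 (∫ x, h₀ x * (3 / 2))) := by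
    have h1 := hdiff.add (hW2 w hw h₀ hi₀)
    rw [zero_add] at h1
    refine h1.congr fun N => ?_
    rw [← integral_add (hiw (fun x => h N x - h₀ x) N ((hi N).sub hi₀)) (hiw _ N hi₀)]
    refine integral_congr_ae (ae_of_all _ fun x => ?_)
    simp only []
    ring
  refine ⟨hmain, ?_⟩
  have h2 := (hdiff1.const_mul (3 / 2)).sub (hmain.const_mul (1 / 2))
  have e1 : (3 / 2 : ℝ) * ∫ x, h₀ x = ∫ x, (3 / 2) * h₀ x := (integral_const_mul _ _).symm
  have e2 : 3 / 2 * (∫ x, h₀ x) - 1 / 2 * ∫ x, h₀ x * (3 / 2) = ∫ x, h₀ x * (3 / 4) := by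
    rw [integral_mul_const, integral_mul_const]
    ring
  rw [e2] at h2
  refine h2.congr fun N => ?_
  rw [← integral_const_mul, ← integral_const_mul, ← integral_sub ((hi N).const_mul _)
    ((hiw _ N (hi N)).const_mul _)]
  refine integral_congr_ae ?_
  filter_upwards [hw.inv N] with x hx
  rw [hx]
  ring

end Run7.h803.HK
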