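import Pool.Agent.Run7.h115.HK.Iface

/-! # N1: the Laplacian of `F ∘ g_w` -/

set_option autoImplicit false

open MeasureTheory Filter Topology Set
open scoped ENNReal
open Pool.Agent.N288.MM

namespace Run7.h803.HK

open Run7.h115.HK

theorem l2_pair {μ : Measure ℝ} {u : ℕ → ℝ → ℝ} {g k : ℝ → ℝ}
    (hu : ∀ n, AEStronglyMeasurable (u n) μ) (hg : MemLp g 2 μ) (hk : MemLp k 2 μ)
    (h : Tendsto (fun n => eLpNorm (fun x => u n x - g x) 2 μ) atTop (𝓝 0)) :
    Tendsto (fun n => ∫ x, u n x * k x ∂μ) atTop (𝓝 (∫ x, g x * k x ∂μ)) := by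
  have hev : ∀ᶠ n in atTop, MemLp (u n) 2 μ := by
    have h1 : ∀ᶠ n in atTop, eLpNorm (fun x => u n x - g x) 2 μ < 1 :=
      (tendsto_order.1 h).2 _ one_pos
    filter_upwards [h1] with n hn
    have h2 : MemLp (fun x => u n x - g x) 2 μ := ⟨(hu n).sub hg.1, hn.trans ENNReal.one_lt_top⟩
    have h3 := h2.add hg
    have e : (fun x => u n x - g x) + g = u n := by
      funext x
      simp
    rwa [e] at h3
  refine tendsto_integral_of_L1' _ (hg.integrable_mul hk).1 ?_ ?_
  · filter_upwards [hev] with n hn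
    exact hn.integrable_mul hk
  · have h5 : Tendsto (fun n => eLpNorm (fun x => u n x - g x) 2 μ * eLpNorm k 2 μ) atTop (𝓝 0) := by
      have := ENNReal.Tendsto.mul_const h (b := eLpNorm k 2 μ) (Or.inr hk.2.ne)
      rwa [zero_mul] at this
    refine tendsto_of_tendsto_of_tendsto_of_le_of_le tendsto_const_nhds h5 (fun _ => bot_le)
      fun n => ?_
    have h6 := eLpNorm_smul_le_mul_eLpNorm (p := 2) (q := 2) (r := 1) hk.1
      ((hu n).sub hg.1)
    refine le_trans (le_of_eq ?_) h6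
    congr 1
    funext x
    simp only [Pi.sub_apply, Pi.smul_apply', smul_eq_mul, Pi.mul_apply]
    ring

variable {w : ℝ → ℝ}

theorem inv_bd (hw : Weight w) (t : ℝ) : 1 / 2 ≤ (w t)⁻¹ ∧ (w t)⁻¹ ≤ 1 := by
  have h1 := hw.one_le t
  have h2 := hw.le_two t
  have h0 : 0 < w t := by linarith
  refine ⟨?_, inv_le_one_of_one_le₀ h1⟩
  rw [one_div]
  exact inv_anti₀ h0 h2

theorem inv_loc (hw : Weight w) : LocallyIntegrable (fun t => (w t)⁻¹) := by
  refine (locallyIntegrable_const (1 : ℝ)).mono hw.meas.inv.aestronglyMeasurable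
    (ae_of_all _ fun t => ?_)
  have := inv_bd hw t
  rw [Real.norm_eq_abs, Real.norm_eq_abs, abs_of_nonneg (by linarith), abs_one]
  exact this.2

theorem inv_iint (hw : Weight w) (a b : ℝ) : IntervalIntegrable (fun t => (w t)⁻¹) volume a b :=
  (((inv_loc hw).integrableOn_isCompact isCompact_uIcc).mono_set uIoc_subset_uIcc) |>
    intervalIntegrable_iff.mpr

theorem gw_lip (hw : Weight w) : LipschitzWith 1 (gw w) := by
  refine LipschitzWith.of_dist_le_mul fun x y => ?_
  unfold gw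
  rw [Real.dist_eq, intervalIntegral.integral_interval_sub_left (inv_iint hw _ _)
    (inv_iint hw _ _), Real.dist_eq, NNReal.coe_one]
  have := intervalIntegral.norm_integral_le_of_norm_le_const (a := y) (b := x)
    (f := fun t => (w t)⁻¹) (C := 1) (fun t _ => by
      have := inv_bd hw t
      rw [Real.norm_eq_abs, abs_of_nonneg (by linarith)]
      exact this.2)
  simpa using this

theorem gw_ge (hw : Weight w) (x : ℝ) : |x| / 2 ≤ |gw w x| := by
  have key : ∀ a b : ℝ, a ≤ b → (b - a) / 2 ≤ ∫ t in a..b, (w t)⁻¹ := by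
    intro a b hab
    have h1 : ∫ _ in a..b, (1 / 2 : ℝ) = (b - a) / 2 := by
      rw [intervalIntegral.integral_const, smul_eq_mul]
      ring
    rw [← h1]
    exact intervalIntegral.integral_mono_on hab (by simp) (inv_iint hw _ _)
      fun t _ => (inv_bd hw t).1
  unfold gw
  rcases le_total 0 x with hx | hx
  · have := key 0 x hx
    rw [abs_of_nonneg hx]
    exact (by linarith : x / 2 ≤ ∫ t in (0 : ℝ)..x, (w t)⁻¹).trans (le_abs_self _)
  · have := key x 0 hx
    rw [abs_of_nonpos hx, intervalIntegral.integral_symm, abs_neg]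
    exact (by linarith : -x / 2 ≤ ∫ t in x..(0 : ℝ), (w t)⁻¹).trans (le_abs_self _)

theorem gw_deriv (hw : Weight w) : ∀ᵐ x, HasDerivAt (gw w) (w x)⁻¹ x := by
  filter_upwards [LocallyIntegrable.ae_hasDerivAt_integral (inv_loc hw)] with x hx
  exact hx 0

/-- `G ∘ g_w` vanishes outside a bounded interval -/
theorem comp_zero (hw : Weight w) {G : ℝ → ℝ} (hG : HasCompactSupport G) :
    ∃ T : ℝ, 0 < T ∧ ∀ x, T ≤ |x| → G (gw w x) = 0 := by
  obtain ⟨R, hR⟩ := hG.isCompact.isBounded.subset_ball (0 : ℝ)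
  refine ⟨2 * |R| + 1, by positivity, fun x hx => ?_⟩
  by_contra hne
  have h1 : gw w x ∈ tsupport G := subset_tsupport _ hne
  have h2 := hR h1
  rw [Metric.mem_ball, Real.dist_eq, sub_zero] at h2
  have h3 := gw_ge hw x
  have h4 := le_abs_self R
  linarith

theorem comp_cpt (hw : Weight w) {G : ℝ → ℝ} (hG : HasCompactSupport G) :
    HasCompactSupport fun x => G (gw w x) := by
  obtain ⟨T, _, hT⟩ := comp_zero hw hG
  refine HasCompactSupport.intro (isCompact_Icc (a := -T) (b := T)) fun x hx => hT x ?_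
  by_contra hcon
  push Not at hcon
  exact hx (abs_le.1 hcon.le)

theorem comp_mem (hw : Weight w) {G : ℝ → ℝ} (hc : Continuous G) (hG : HasCompactSupport G) :
    MemLp (fun x => G (gw w x)) 2 (mu w) :=
  memLp_mu hw ((hc.comp (gw_lip hw).continuous).memLp_of_hasCompactSupport (comp_cpt hw hG))

theorem comp_mem' (hw : Weight w) {G : ℝ → ℝ} (hc : Continuous G) (hG : HasCompactSupport G)
    (j : ℕ) : MemLp (fun x => G (gw w x) * (w x)⁻¹ ^ j) 2 (mu w) := by
  refine (comp_mem hw hc hG).of_le ?_ (ae_of_all _ fun x => ?_)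
  · exact ((hc.comp (gw_lip hw).continuous).measurable.mul
      (hw.meas.inv.pow_const j)).aestronglyMeasurable
  · have h1 := inv_bd hw x
    have h0 : 0 ≤ (w x)⁻¹ := by linarith
    rw [norm_mul, norm_pow, Real.norm_eq_abs (w x)⁻¹, abs_of_nonneg h0]
    exact mul_le_of_le_one_right (norm_nonneg _) (pow_le_one₀ h0 h1.2)

theorem comp_lip (hw : Weight w) {G : ℝ → ℝ} (hc : ContDiff ℝ 1 G) (hG : HasCompactSupport G) :
    IsLip fun x => G (gw w x) := by
  obtain ⟨C, hC⟩ := hc.lipschitzWith_of_hasCompactSupport hG one_ne_zero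
  exact ⟨C * 1, hC.comp (gw_lip hw)⟩

theorem comp_deriv (hw : Weight w) {G : ℝ → ℝ} (hc : ContDiff ℝ 1 G) :
    ∀ᵐ x, deriv (fun x => G (gw w x)) x = deriv G (gw w x) * (w x)⁻¹ := by
  filter_upwards [gw_deriv hw] with x hx
  exact (((hc.differentiable one_ne_zero).differentiableAt.hasDerivAt).comp x hx).deriv

theorem comp_der (hw : Weight w) {G : ℝ → ℝ} (hc : ContDiff ℝ 1 G) (hG : HasCompactSupport G) :
    Der w (fun x => G (gw w x)) (fun x => deriv G (gw w x) * (w x)⁻¹) := by
  have h1 := comp_mem' hw (hc.continuous_deriv le_rfl) hG.deriv 1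
  simp only [pow_one] at h1
  refine (Der.of_lip (comp_lip hw hc hG) (comp_mem hw hc.continuous hG) ?_).congr hw
    (comp_deriv hw hc)
  exact h1.ae_eq (((ae_iff_vol hw).2 (comp_deriv hw hc)).mono fun x hx => hx.symm)

theorem parts (hw : Weight w) {G : ℝ → ℝ} (hc : ContDiff ℝ 1 G) (hG : HasCompactSupport G)
    {Φ : ℝ → ℝ} (hΦ : IsLip Φ) :
    ∫ x, deriv Φ x * (G (gw w x) * (w x)⁻¹) ∂(mu w) =
      -∫ x, Φ x * (deriv G (gw w x) * (w x)⁻¹ ^ 2) ∂(mu w) := by
  have hpos : ∀ x, w x ≠ 0 := fun x => by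
    have := hw.one_le x
    intro h
    linarith
  set H : ℝ → ℝ := fun x => G (gw w x) with hH
  have e1 : ∫ x, deriv Φ x * (G (gw w x) * (w x)⁻¹) ∂(mu w) = ∫ x, deriv Φ x * H x := by
    rw [int_mu hw]
    refine integral_congr_ae (ae_of_all _ fun x => ?_)
    simp only [hH]
    field_simp [hpos x]
  have e2 : ∫ x, Φ x * (deriv G (gw w x) * (w x)⁻¹ ^ 2) ∂(mu w) = ∫ x, Φ x * deriv H x := by
    rw [int_mu hw]
    refine integral_congr_ae ?_
    filter_upwards [comp_deriv hw hc] with x hx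
    have hx' : deriv H x = deriv G (gw w x) * (w x)⁻¹ := hx
    rw [hx']
    field_simp [hpos x]
  rw [e1, e2]
  obtain ⟨T, hT, hz⟩ := comp_zero hw hG
  have hHz : ∀ x, T ≤ |x| → H x = 0 := hz
  have hdz : ∀ x, T < |x| → deriv H x = 0 := by
    intro x hx
    have h1 : H =ᶠ[𝓝 x] fun _ => 0 := by
      have h2 : {y : ℝ | T < |y|} ∈ 𝓝 x := (isOpen_lt continuous_const continuous_abs).mem_nhds hx
      filter_upwards [h2] with y hy
      exact hHz y (le_of_lt hy)
    rw [h1.deriv_eq, deriv_const]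
  obtain ⟨K, hK⟩ := hΦ
  obtain ⟨L, hL⟩ := comp_lip hw hc hG
  have hp := AbsolutelyContinuousOnInterval.integral_mul_deriv_eq_deriv_mul (a := -(T + 1))
    (b := T + 1) (hK.lipschitzOnWith.absolutelyContinuousOnInterval)
    (hL.lipschitzOnWith.absolutelyContinuousOnInterval)
  have b1 : H (T + 1) = 0 := hHz _ (by rw [abs_of_pos (by linarith)]; linarith)
  have b2 : H (-(T + 1)) = 0 := hHz _ (by rw [abs_neg, abs_of_pos (by linarith)]; linarith)
  have b1' : G (gw w (T + 1)) = 0 := b1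
  have b2' : G (gw w (-(T + 1))) = 0 := b2
  have hp : ∫ x in (-(T + 1))..(T + 1), Φ x * deriv (fun x => G (gw w x)) x =
    Φ (T + 1) * G (gw w (T + 1)) - Φ (-(T + 1)) * G (gw w (-(T + 1))) -
      ∫ x in (-(T + 1))..(T + 1), deriv Φ x * G (gw w x) := hp
  rw [b1', b2', mul_zero, mul_zero, sub_zero, zero_sub] at hp
  have i1 : ∫ x in (-(T + 1))..(T + 1), Φ x * deriv (fun x => G (gw w x)) x =
      ∫ x, Φ x * deriv H x := by
    refine intervalIntegral.integral_eq_integral_of_support_subset fun x hx => ?_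
    by_contra hcon
    apply hx
    have : T < |x| := by
      by_contra hle
      push Not at hle
      have := abs_le.1 hle
      exact hcon ⟨by linarith [this.1], by linarith [this.2]⟩
    change Φ x * deriv H x = 0
    rw [hdz x this, mul_zero]
  have i2 : ∫ x in (-(T + 1))..(T + 1), deriv Φ x * G (gw w x) =
      ∫ x, deriv Φ x * H x := by
    refine intervalIntegral.integral_eq_integral_of_support_subset fun x hx => ?_
    by_contra hcon
    apply hx
    have : T < |x| := by
      by_contra hle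
      push Not at hle
      have := abs_le.1 hle
      exact hcon ⟨by linarith [this.1], by linarith [this.2]⟩
    change deriv Φ x * H x = 0
    rw [hHz x this.le, mul_zero]
  rw [i1, i2] at hp
  rw [hp, neg_neg]

theorem t_N1 : S_N1 := by
  intro w hw F hF hFc
  have hF1 : ContDiff ℝ 1 F := hF.of_le (by norm_num)
  have hF' : ContDiff ℝ 1 (deriv F) := by
    have h2 : ContDiff ℝ (1 + 1) F := by
      rw [one_add_one_eq_two]
      exact hF
    exact (contDiff_succ_iff_deriv.1 h2).2.2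
  have hFc' : HasCompactSupport (deriv F) := hFc.deriv
  refine ⟨comp_der hw hF1 hFc, comp_mem' hw (hF'.continuous_deriv le_rfl) hFc'.deriv 2, ?_⟩
  rintro v θ ⟨hv, hθ, Φ, hΦ, hd⟩
  have k1 := comp_mem' hw (hF1.continuous_deriv le_rfl) hFc' 1
  simp only [pow_one] at k1
  have k2 := comp_mem' hw (hF'.continuous_deriv le_rfl) hFc'.deriv 2
  have t1 := l2_pair (fun n => (measurable_deriv (Φ n)).aestronglyMeasurable) hθ k1 hd
  have t2 := (l2_pair (fun n => (hΦ.1 n).2.1) hv k2 hΦ.2).neg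
  refine tendsto_nhds_unique t1 (t2.congr fun n => ?_)
  exact (parts hw hF' hFc' (hΦ.1 n).1).symm

end Run7.h803.HK
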